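import Mathlib

set_option autoImplicit false

namespace Pool.Agent.AntiSid

open Finset

noncomputable section

set_option linter.unusedSectionVars false

open Classical in
/-- `ind G b x y` is the 0/1 indicator of the arc `x → y` (if `b`) or `y → x` (if not `b`). -/
def ind {W : Type*} (G : W → W → Prop) (b : Bool) (x y : W) : ℝ :=
  if (if b then G x y else G y x) then 1 else 0

variable {V W : Type*} [Fintype V] [DecidableEq V] [Fintype W] [DecidableEq W]

/-- The weight of a map on the alive set `S` with root `r`. -/
def FS (G : W → W → Prop) (par : V → V) (o : V → Bool) (S : Finset V) (r : V) (f : V → W) : ℝ :=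
  ∏ v ∈ S.erase r, ind G (o v) (f v) (f (par v))

/-- The number of maps with root value `y`. -/
def NS (G : W → W → Prop) (par : V → V) (o : V → Bool) (S : Finset V) (r : V) (y : W) : ℝ :=
  ∑ f : V → W, if f r = y then FS G par o S r f else 0

def dOut (G : W → W → Prop) (x : W) : ℝ := ∑ y, ind G true x y
def dIn (G : W → W → Prop) (x : W) : ℝ := ∑ y, ind G true y x

lemma ind_nonneg (G : W → W → Prop) (b : Bool) (x y : W) : 0 ≤ ind G b x y := by
  unfold ind
  by_cases h : (if b then G x y else G y x)
  · rw [if_pos h]; norm_num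
  · rw [if_neg h]

lemma ind_sq (G : W → W → Prop) (b : Bool) (x y : W) : ind G b x y ^ 2 = ind G b x y := by
  unfold ind
  by_cases h : (if b then G x y else G y x)
  · rw [if_pos h]; norm_num
  · rw [if_neg h]; norm_num

lemma ind_false (G : W → W → Prop) (x y : W) : ind G false x y = ind G true y x := by
  unfold ind; simp

lemma dOut_nonneg (G : W → W → Prop) (x : W) : 0 ≤ dOut G x :=
  Finset.sum_nonneg fun _ _ => ind_nonneg _ _ _ _

lemma dIn_nonneg (G : W → W → Prop) (x : W) : 0 ≤ dIn G x :=
  Finset.sum_nonneg fun _ _ => ind_nonneg _ _ _ _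

/-- Tournament. -/
def Tour (G : W → W → Prop) : Prop := (∀ a, ¬ G a a) ∧ ∀ a b, a ≠ b → (G a b ↔ ¬ G b a)

lemma ind_add (G : W → W → Prop) (hG : Tour G) (x y : W) :
    ind G true x y + ind G true y x ≤ 1 := by
  by_cases h : x = y
  · subst h
    have := hG.1 x
    simp [ind, this]
  · have h1 := hG.2 x y h
    by_cases h2 : G y x
    · have : ¬ G x y := fun h3 => (h1.1 h3) h2
      simp [ind, this, h2]
    · have : G x y := h1.2 h2
      simp [ind, this, h2]

lemma dOut_add_dIn (G : W → W → Prop) (hG : Tour G) (x : W) :
    dOut G x + dIn G x ≤ Fintype.card W := by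
  unfold dOut dIn
  rw [← Finset.sum_add_distrib]
  calc ∑ y, (ind G true x y + ind G true y x) ≤ ∑ _y : W, (1:ℝ) :=
        Finset.sum_le_sum fun y _ => ind_add G hG x y
    _ = Fintype.card W := by simp

lemma dd_le (G : W → W → Prop) (hG : Tour G) (x : W) :
    dOut G x * dIn G x ≤ (Fintype.card W : ℝ) ^ 2 / 4 := by
  have h1 := dOut_add_dIn G hG x
  have h2 := dOut_nonneg G x
  have h3 := dIn_nonneg G x
  nlinarith [sq_nonneg (dOut G x - dIn G x)]

lemma sum_dOut_eq (G : W → W → Prop) : ∑ x, dOut G x = ∑ x, dIn G x := by
  unfold dOut dIn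
  rw [Finset.sum_comm]

lemma sum_dOut_le (G : W → W → Prop) (hG : Tour G) :
    ∑ x, dOut G x ≤ (Fintype.card W : ℝ) ^ 2 / 2 := by
  have h1 : ∑ x, (dOut G x + dIn G x) ≤ ∑ _x : W, (Fintype.card W : ℝ) :=
    Finset.sum_le_sum fun x _ => dOut_add_dIn G hG x
  rw [Finset.sum_add_distrib, ← sum_dOut_eq] at h1
  simp only [Finset.sum_const, Finset.card_univ, nsmul_eq_mul] at h1
  nlinarith

lemma sum_dIn_le (G : W → W → Prop) (hG : Tour G) :
    ∑ x, dIn G x ≤ (Fintype.card W : ℝ) ^ 2 / 2 := by
  rw [← sum_dOut_eq]; exact sum_dOut_le G hG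

/-- averaging over one coordinate -/
lemma sum_update (H : (V → W) → ℝ) (x : V) :
    ∑ f : V → W, ∑ z : W, H (Function.update f x z) = (Fintype.card W : ℝ) * ∑ f, H f := by
  have e : ∑ p : (V → W) × W, H (Function.update p.1 x p.2) = ∑ p : (V → W) × W, H p.1 := by
    refine Finset.sum_nbij' (fun p => (Function.update p.1 x p.2, p.1 x))
      (fun p => (Function.update p.1 x p.2, p.1 x)) ?_ ?_ ?_ ?_ ?_
    · intro a _; simp
    · intro a _; simp
    · intro a _; simp
    · intro a _; simp
    · intro a _; simp
  rw [← Finset.univ_product_univ, Finset.sum_product, Finset.sum_product] at e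
  rw [e]
  simp [Finset.mul_sum]

/-- free coordinate -/
lemma free_coord (H : (V → W) → ℝ) (φ : W → (V → W) → ℝ) (x : V)
    (hH : ∀ f z, H (Function.update f x z) = H f)
    (hφ : ∀ w f z, φ w (Function.update f x z) = φ w f) :
    (Fintype.card W : ℝ) * ∑ f : V → W, H f * φ (f x) f = ∑ f : V → W, H f * ∑ z, φ z f := by
  rw [← sum_update (fun f => H f * φ (f x) f) x]
  refine Finset.sum_congr rfl fun f _ => ?_
  rw [Finset.mul_sum]
  refine Finset.sum_congr rfl fun z _ => ?_
  rw [hH, hφ]
  simp

lemma FS_nonneg (G : W → W → Prop) (par : V → V) (o : V → Bool) (S : Finset V) (r : V)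
    (f : V → W) : 0 ≤ FS G par o S r f :=
  Finset.prod_nonneg fun _ _ => ind_nonneg _ _ _ _

lemma NS_nonneg (G : W → W → Prop) (par : V → V) (o : V → Bool) (S : Finset V) (r : V)
    (y : W) : 0 ≤ NS G par o S r y :=
  Finset.sum_nonneg fun f _ => by split_ifs <;> simp [FS_nonneg]

lemma FS_update (G : W → W → Prop) (par : V → V) (o : V → Bool) (S : Finset V) (r x : V)
    (hx : x ∉ S.erase r) (hp : ∀ v ∈ S.erase r, par v ≠ x) (f : V → W) (z : W) :
    FS G par o S r (Function.update f x z) = FS G par o S r f := by
  unfold FS
  refine Finset.prod_congr rfl fun v hv => ?_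
  have h1 : v ≠ x := fun h => hx (h ▸ hv)
  rw [Function.update_of_ne h1, Function.update_of_ne (hp v hv)]

lemma FS_congr (G : W → W → Prop) (par : V → V) (o o' : V → Bool) (S : Finset V) (r : V)
    (h : ∀ v ∈ S.erase r, o v = o' v) (f : V → W) :
    FS G par o S r f = FS G par o' S r f :=
  Finset.prod_congr rfl fun v hv => by rw [h v hv]

lemma NS_congr (G : W → W → Prop) (par : V → V) (o o' : V → Bool) (S : Finset V) (r : V)
    (h : ∀ v ∈ S.erase r, o v = o' v) (y : W) :
    NS G par o S r y = NS G par o' S r y := by
  unfold NS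
  refine Finset.sum_congr rfl fun f _ => ?_
  rw [FS_congr G par o o' S r h]

/-- total number of maps = sum over root values -/
lemma sum_NS (G : W → W → Prop) (par : V → V) (o : V → Bool) (S : Finset V) (r : V) :
    ∑ y, NS G par o S r y = ∑ f : V → W, FS G par o S r f := by
  unfold NS
  rw [Finset.sum_comm]
  refine Finset.sum_congr rfl fun f _ => ?_
  simp

/-- removing a pair of sibling leaves -/
lemma pair_removal (G : W → W → Prop) (hG : Tour G) (par : V → V) (o : V → Bool) (S : Finset V)
    (r x y : V) (hx : x ∈ S) (hy : y ∈ S) (hxr : x ≠ r) (hyr : y ≠ r) (hxy : x ≠ y)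
    (hpar : par x = par y) (hvx : par x ≠ x) (hvy : par x ≠ y)
    (hcx : ∀ v ∈ S.erase r, par v ≠ x) (hcy : ∀ v ∈ S.erase r, par v ≠ y)
    (ox : o x = true) (oy : o y = false) (z : W) :
    NS G par o S r z ≤ (1 / 4) * NS G par o ((S.erase x).erase y) r z := by
  set S' := (S.erase x).erase y with hS'
  set m : ℝ := (Fintype.card W : ℝ) with hm
  have hsub : S'.erase r ⊆ S.erase r := by
    intro v hv
    simp only [hS', Finset.mem_erase] at hv ⊢
    exact ⟨hv.1, hv.2.2.2⟩
  have hFS : ∀ f : V → W, FS G par o S r f =
      FS G par o S' r f * (ind G true (f x) (f (par x)) * ind G false (f y) (f (par x))) := by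
    intro f
    unfold FS
    have h1 : x ∈ S.erase r := Finset.mem_erase.2 ⟨hxr, hx⟩
    have h2 : y ∈ (S.erase r).erase x := by simp [hy, hyr, hxy.symm]
    have h3 : S'.erase r = ((S.erase r).erase x).erase y := by
      ext v; simp only [hS', Finset.mem_erase]; tauto
    rw [← Finset.mul_prod_erase _ _ h1, ← Finset.mul_prod_erase _ _ h2, h3, ox, oy, ← hpar]
    ring
  have hxS' : x ∉ S'.erase r := by simp [hS']
  have hyS' : y ∉ S'.erase r := by simp [hS']
  -- first coordinate
  have key1 : m * NS G par o S r z =
      ∑ f : V → W, (if f r = z then FS G par o S' r f else 0) *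
        (ind G false (f y) (f (par x)) * dIn G (f (par x))) := by
    unfold NS
    have e1 : ∀ f : V → W, (if f r = z then FS G par o S r f else 0) =
        ((if f r = z then FS G par o S' r f else 0) * ind G false (f y) (f (par x))) *
          (fun w (f : V → W) => ind G true w (f (par x))) (f x) f := by
      intro f
      split_ifs with h
      · rw [hFS f]; ring
      · simp
    rw [Finset.sum_congr rfl fun f _ => e1 f]
    rw [free_coord (fun f => (if f r = z then FS G par o S' r f else 0) *
        ind G false (f y) (f (par x))) (fun w (f : V → W) => ind G true w (f (par x))) x]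
    · refine Finset.sum_congr rfl fun f _ => ?_
      simp only [dIn]
      ring
    · intro f w
      rw [Function.update_of_ne hxr.symm, Function.update_of_ne hxy.symm,
        Function.update_of_ne hvx,
        FS_update G par o S' r x hxS' (fun v hv => hcx v (hsub hv))]
    · intro w f w'
      rw [Function.update_of_ne hvx]
  have key2 : m * ∑ f : V → W, (if f r = z then FS G par o S' r f else 0) *
        (ind G false (f y) (f (par x)) * dIn G (f (par x))) =
      ∑ f : V → W, (if f r = z then FS G par o S' r f else 0) *
        (dOut G (f (par x)) * dIn G (f (par x))) := by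
    have e1 : ∀ f : V → W, (if f r = z then FS G par o S' r f else 0) *
        (ind G false (f y) (f (par x)) * dIn G (f (par x))) =
        ((if f r = z then FS G par o S' r f else 0) * dIn G (f (par x))) *
          (fun w (f : V → W) => ind G false w (f (par x))) (f y) f := by
      intro f; simp only; ring
    rw [Finset.sum_congr rfl fun f _ => e1 f]
    rw [free_coord (fun f => (if f r = z then FS G par o S' r f else 0) *
        dIn G (f (par x))) (fun w (f : V → W) => ind G false w (f (par x))) y]
    · refine Finset.sum_congr rfl fun f _ => ?_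
      simp only [dOut, ind_false]
      ring
    · intro f w
      rw [Function.update_of_ne hyr.symm, Function.update_of_ne hvy,
        FS_update G par o S' r y hyS' (fun v hv => hcy v (hsub hv))]
    · intro w f w'
      rw [Function.update_of_ne hvy]
  have hm0 : 0 ≤ m := by positivity
  rcases eq_or_lt_of_le hm0 with h0 | hpos
  · -- no vertices
    have : IsEmpty W := by
      rw [← Fintype.card_eq_zero_iff]
      have : (Fintype.card W : ℝ) = 0 := by rw [← hm]; exact h0.symm
      exact_mod_cast this
    exact (this.false z).elim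
  · have key3 : m * (m * NS G par o S r z) ≤ m ^ 2 / 4 * NS G par o S' r z := by
      rw [key1, key2]
      unfold NS
      rw [Finset.mul_sum]
      refine Finset.sum_le_sum fun f _ => ?_
      have h1 := dd_le G hG (f (par x))
      have h2 : 0 ≤ (if f r = z then FS G par o S' r f else 0) := by
        split_ifs <;> simp [FS_nonneg]
      rw [← hm] at h1
      nlinarith [mul_le_mul_of_nonneg_left h1 h2]
    have : m ^ 2 * NS G par o S r z ≤ m ^ 2 * ((1 / 4) * NS G par o S' r z) := by nlinarith
    exact le_of_mul_le_mul_left this (by positivity)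

/-- moving the root: `S' = S.erase r` rooted at `s`, where `s` is the only child of `r`. -/
lemma root_step (G : W → W → Prop) (par : V → V) (o : V → Bool) (S : Finset V)
    (r s : V) (hs : s ∈ S) (hsr : s ≠ r) (hpar : par s = r)
    (hc : ∀ v ∈ S.erase r, par v = r → v = s)
    (os : o s = true) (y : W) :
    (Fintype.card W : ℝ) * NS G par o S r y =
      ∑ z, ind G true z y * NS G par o (S.erase r) s z := by
  set S' := S.erase r with hS'
  have hFS : ∀ f : V → W, FS G par o S r f = FS G par o S' s f * ind G true (f s) (f r) := by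
    intro f
    unfold FS
    have h1 : s ∈ S.erase r := Finset.mem_erase.2 ⟨hsr, hs⟩
    rw [← Finset.mul_prod_erase _ _ h1, os, hpar]
    ring
  have hr : r ∉ S'.erase s := by simp [hS']
  have hr2 : ∀ v ∈ S'.erase s, par v ≠ r := by
    intro v hv h
    rw [Finset.mem_erase] at hv
    exact hv.1 (hc v hv.2 h)
  have e1 : (Fintype.card W : ℝ) * NS G par o S r y =
      ∑ f : V → W, FS G par o S' s f * ind G true (f s) y := by
    unfold NS
    have e2 : ∀ f : V → W, (if f r = y then FS G par o S r f else 0) =
        FS G par o S' s f * (fun w (f : V → W) => if w = y then ind G true (f s) y else 0) (f r) f := by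
      intro f
      simp only
      split_ifs with h
      · rw [hFS f, h]
      · simp
    rw [Finset.sum_congr rfl fun f _ => e2 f, free_coord (fun f => FS G par o S' s f)
      (fun w (f : V → W) => if w = y then ind G true (f s) y else 0) r]
    · refine Finset.sum_congr rfl fun f _ => ?_
      simp
    · intro f z
      exact FS_update G par o S' s r hr hr2 f z
    · intro w f z
      rw [Function.update_of_ne hsr]
  rw [e1]
  unfold NS
  simp_rw [Finset.mul_sum]
  rw [Finset.sum_comm]
  refine Finset.sum_congr rfl fun f _ => ?_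
  rw [Finset.sum_eq_single (f s)]
  · simp; ring
  · intro b _ hb; simp [Ne.symm hb]
  · simp

/-- moving the root with one extra leaf `l` at `r`. -/
lemma root_step2 (G : W → W → Prop) (par : V → V) (o : V → Bool) (S : Finset V)
    (r s l : V) (hs : s ∈ S) (hl : l ∈ S) (hsr : s ≠ r) (hlr : l ≠ r) (hls : l ≠ s)
    (hpar : par s = r) (hparl : par l = r)
    (hc : ∀ v ∈ S.erase r, par v = r → v = s ∨ v = l) (hcl : ∀ v ∈ S.erase r, par v ≠ l)
    (os : o s = true) (ol : o l = false) (y : W) :
    (Fintype.card W : ℝ) ^ 2 * NS G par o S r y =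
      dOut G y * ∑ z, ind G true z y * NS G par o ((S.erase r).erase l) s z := by
  have h1 : (Fintype.card W : ℝ) * NS G par o S r y =
      dOut G y * NS G par o (S.erase l) r y := by
    unfold NS
    have hFS : ∀ f : V → W, FS G par o S r f =
        FS G par o (S.erase l) r f * ind G false (f l) (f r) := by
      intro f
      unfold FS
      have h1 : l ∈ S.erase r := Finset.mem_erase.2 ⟨hlr, hl⟩
      have h2 : (S.erase l).erase r = (S.erase r).erase l := by
        ext v; simp only [Finset.mem_erase]; tauto
      rw [← Finset.mul_prod_erase _ _ h1, ol, hparl, h2]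
      ring
    have e2 : ∀ f : V → W, (if f r = y then FS G par o S r f else 0) =
        (if f r = y then FS G par o (S.erase l) r f else 0) *
          (fun w (_ : V → W) => ind G false w y) (f l) f := by
      intro f
      simp only
      split_ifs with h
      · rw [hFS f, h]
      · simp
    rw [Finset.sum_congr rfl fun f _ => e2 f,
      free_coord (fun f => if f r = y then FS G par o (S.erase l) r f else 0)
        (fun w (_ : V → W) => ind G false w y) l]
    · rw [Finset.mul_sum]
      refine Finset.sum_congr rfl fun f _ => ?_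
      simp only [dOut, ind_false]
      ring
    · intro f z
      rw [Function.update_of_ne hlr.symm, FS_update G par o (S.erase l) r l (by simp)]
      intro v hv
      refine hcl v ?_
      simp only [Finset.mem_erase] at hv ⊢
      exact ⟨hv.1, hv.2.2⟩
    · intro w f z
      rfl
  have h2 := root_step G par o (S.erase l) r s (Finset.mem_erase.2 ⟨hls.symm, hs⟩) hsr hpar
    (by
      intro v hv h
      simp only [Finset.mem_erase] at hv
      rcases hc v (Finset.mem_erase.2 ⟨hv.1, hv.2.2⟩) h with h3 | h3
      · exact h3
      · exact absurd h3 hv.2.1) os y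
  have h3 : (S.erase l).erase r = (S.erase r).erase l := by
    ext v; simp only [Finset.mem_erase]; tauto
  rw [h3] at h2
  calc (Fintype.card W : ℝ) ^ 2 * NS G par o S r y
      = (Fintype.card W : ℝ) * ((Fintype.card W : ℝ) * NS G par o S r y) := by ring
    _ = dOut G y * ((Fintype.card W : ℝ) * NS G par o (S.erase l) r y) := by rw [h1]; ring
    _ = _ := by rw [h2]

end

end Pool.Agent.AntiSid
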