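import Pool.Agent.AntiSid.Core

set_option autoImplicit false

namespace Pool.Agent.AntiSid

open Finset

noncomputable section

set_option linter.unusedSectionVars false

variable {V : Type*} [Fintype V] [DecidableEq V]

/-- children of `v` in the alive set `S` with root `r` -/
def ch (par : V → V) (S : Finset V) (r v : V) : Finset V :=
  S.filter fun u => u ≠ r ∧ par u = v

structure Hyp (par : V → V) (dep : V → ℕ) (C : Set V) (S : Finset V) (r : V) : Prop where
  hr : r ∈ S
  hpar : ∀ v ∈ S, v ≠ r → par v ∈ S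
  hdep : ∀ v ∈ S, v ≠ r → dep (par v) < dep v
  heven : ∀ v ∈ S, v ≠ r → v ∉ C → Even (ch par S r v).card
  hchain : ∀ u ∈ S, ∀ u' ∈ S, u ≠ r → u' ≠ r → u ∈ C → u' ∈ C → par u = par u' → u = u'
  hup : ∀ v ∈ S, v ≠ r → v ∈ C → par v ∈ C

variable {par : V → V} {dep : V → ℕ} {C : Set V}

lemma Hyp.par_ne {S : Finset V} {r : V} (h : Hyp par dep C S r) {v : V} (hv : v ∈ S)
    (hvr : v ≠ r) : par v ≠ v := by
  intro h1
  have := h.hdep v hv hvr
  rw [h1] at this
  exact lt_irrefl _ this

lemma Hyp.par_par_ne {S : Finset V} {r : V} (h : Hyp par dep C S r) {v w : V} (hv : v ∈ S)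
    (hw : w ∈ S) (hvr : v ≠ r) (hwr : w ≠ r) (hp : par v = w) : par w ≠ v := by
  intro h1
  have h2 := h.hdep v hv hvr
  have h3 := h.hdep w hw hwr
  rw [hp] at h2
  rw [h1] at h3
  omega

/-- Hypotheses persist when two sibling leaves off the chain are removed. -/
lemma Hyp.remove_pair {S : Finset V} {r x y : V} (h : Hyp par dep C S r)
    (hx : x ∈ S) (hy : y ∈ S) (hxr : x ≠ r) (hyr : y ≠ r) (hxy : x ≠ y)
    (hp : par x = par y)
    (hcx : ∀ v ∈ S.erase r, par v ≠ x) (hcy : ∀ v ∈ S.erase r, par v ≠ y) :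
    Hyp par dep C ((S.erase x).erase y) r := by
  have mem : ∀ v, v ∈ (S.erase x).erase y → v ∈ S := fun v hv =>
    Finset.mem_of_mem_erase (Finset.mem_of_mem_erase hv)
  refine ⟨?_, ?_, ?_, ?_, ?_, ?_⟩
  · simp [hxr.symm, hyr.symm, h.hr]
  · intro v hv hvr
    have hvS := mem v hv
    have h1 := hcx v (Finset.mem_erase.2 ⟨hvr, hvS⟩)
    have h2 := hcy v (Finset.mem_erase.2 ⟨hvr, hvS⟩)
    simp [h1, h2, h.hpar v hvS hvr]
  · intro v hv hvr
    exact h.hdep v (mem v hv) hvr
  · intro v hv hvr hvC
    have hvS := mem v hv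
    have he := h.heven v hvS hvr hvC
    by_cases hvp : par x = v
    · have h1 : ch par ((S.erase x).erase y) r v = ((ch par S r v).erase x).erase y := by
        ext u; simp only [ch, Finset.mem_filter, Finset.mem_erase]; tauto
      have hxm : x ∈ ch par S r v := by simp [ch, hx, hxr, hvp]
      have hym : y ∈ (ch par S r v).erase x := by
        simp [ch, hy, hyr, hxy.symm, ← hp, hvp]
      rw [h1, Finset.card_erase_of_mem hym, Finset.card_erase_of_mem hxm]
      have hpos : 2 ≤ (ch par S r v).card := by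
        have : ({x, y} : Finset V) ⊆ ch par S r v := by
          intro u hu
          simp only [Finset.mem_insert, Finset.mem_singleton] at hu
          rcases hu with rfl | rfl
          · exact hxm
          · exact Finset.mem_of_mem_erase hym
        calc 2 = ({x, y} : Finset V).card := (Finset.card_pair hxy).symm
          _ ≤ _ := Finset.card_le_card this
      obtain ⟨k, hk⟩ := he
      exact ⟨k - 1, by omega⟩
    · have h1 : ch par ((S.erase x).erase y) r v = ch par S r v := by
        ext u
        simp only [ch, Finset.mem_filter, Finset.mem_erase]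
        constructor
        · tauto
        · rintro ⟨h2, h3, h4⟩
          refine ⟨⟨?_, ?_, h2⟩, h3, h4⟩
          · rintro rfl; exact hvp (hp.trans h4)
          · rintro rfl; exact hvp h4
      rw [h1]; exact he
  · intro u hu u' hu' hur hur' huC huC' hpp
    exact h.hchain u (mem u hu) u' (mem u' hu') hur hur' huC huC' hpp
  · intro v hv hvr hvC
    exact h.hup v (mem v hv) hvr hvC

/-- Hypotheses persist when the root is removed. -/
lemma Hyp.remove_root {S : Finset V} {r s : V} (h : Hyp par dep C S r)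
    (hs : s ∈ S) (hsr : s ≠ r) (hps : par s = r)
    (hc : ∀ v ∈ S.erase r, par v = r → v = s) :
    Hyp par dep C (S.erase r) s := by
  refine ⟨?_, ?_, ?_, ?_, ?_, ?_⟩
  · simp [hsr, hs]
  · intro v hv hvs
    have hv' := Finset.mem_erase.1 hv
    refine Finset.mem_erase.2 ⟨?_, h.hpar v hv'.2 hv'.1⟩
    intro h1
    exact hvs (hc v hv h1)
  · intro v hv hvs
    have hv' := Finset.mem_erase.1 hv
    exact h.hdep v hv'.2 hv'.1
  · intro v hv hvs hvC
    have hv' := Finset.mem_erase.1 hv
    have he := h.heven v hv'.2 hv'.1 hvC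
    have h1 : ch par (S.erase r) s v = ch par S r v := by
      ext u
      simp only [ch, Finset.mem_filter, Finset.mem_erase]
      constructor
      · rintro ⟨⟨h1, h2⟩, h3, h4⟩
        exact ⟨h2, h1, h4⟩
      · rintro ⟨h2, h3, h4⟩
        refine ⟨⟨h3, h2⟩, ?_, h4⟩
        rintro rfl
        rw [hps] at h4
        exact hv'.1 h4.symm
    rw [h1]; exact he
  · intro u hu u' hu' hur hur' huC huC' hpp
    have hv := Finset.mem_erase.1 hu
    have hv' := Finset.mem_erase.1 hu'
    exact h.hchain u hv.2 u' hv'.2 hv.1 hv'.1 huC huC' hpp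
  · intro v hv hvr hvC
    have hv' := Finset.mem_erase.1 hv
    exact h.hup v hv'.2 hv'.1 hvC

/-- Hypotheses persist when the root and a leaf at the root are removed. -/
lemma Hyp.remove_root_leaf {S : Finset V} {r s l : V} (h : Hyp par dep C S r)
    (hs : s ∈ S) (hsr : s ≠ r) (hps : par s = r) (hlr : l ≠ r) (hls : l ≠ s)
    (hpl : par l = r)
    (hc : ∀ v ∈ S.erase r, par v = r → v = s ∨ v = l) (hcl : ∀ v ∈ S.erase r, par v ≠ l) :
    Hyp par dep C ((S.erase r).erase l) s := by
  have mem : ∀ v, v ∈ (S.erase r).erase l → v ∈ S ∧ v ≠ r ∧ v ≠ l := fun v hv => by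
    simp only [Finset.mem_erase] at hv; tauto
  refine ⟨?_, ?_, ?_, ?_, ?_, ?_⟩
  · simp [hsr, hs, hls.symm]
  · intro v hv hvs
    obtain ⟨h1, h2, h3⟩ := mem v hv
    have hve : v ∈ S.erase r := Finset.mem_erase.2 ⟨h2, h1⟩
    refine Finset.mem_erase.2 ⟨hcl v hve, Finset.mem_erase.2 ⟨?_, h.hpar v h1 h2⟩⟩
    intro h4
    rcases hc v hve h4 with h5 | h5
    · exact hvs h5
    · exact h3 h5
  · intro v hv hvs
    obtain ⟨h1, h2, h3⟩ := mem v hv
    exact h.hdep v h1 h2
  · intro v hv hvs hvC
    obtain ⟨h1, h2, h3⟩ := mem v hv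
    have he := h.heven v h1 h2 hvC
    have h1 : ch par ((S.erase r).erase l) s v = ch par S r v := by
      ext u
      simp only [ch, Finset.mem_filter, Finset.mem_erase]
      constructor
      · rintro ⟨⟨h1, h2, h3⟩, h4, h5⟩
        exact ⟨h3, h2, h5⟩
      · rintro ⟨h4, h5, h6⟩
        refine ⟨⟨?_, h5, h4⟩, ?_, h6⟩
        · rintro rfl
          rw [hpl] at h6
          exact h2 h6.symm
        · rintro rfl
          rw [hps] at h6
          exact h2 h6.symm
    rw [h1]; exact he
  · intro u hu u' hu' hur hur' huC huC' hpp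
    obtain ⟨h1, h2, h3⟩ := mem u hu
    obtain ⟨h1', h2', h3'⟩ := mem u' hu'
    exact h.hchain u h1 u' h1' h2 h2' huC huC' hpp
  · intro v hv hvr hvC
    obtain ⟨h1, h2, h3⟩ := mem v hv
    exact h.hup v h1 h2 hvC

/-- The structure lemma. -/
lemma Hyp.cases {S : Finset V} {r : V} (h : Hyp par dep C S r) :
    (∃ x y, x ∈ S ∧ y ∈ S ∧ x ≠ r ∧ y ≠ r ∧ x ≠ y ∧ par x = par y ∧
      (∀ v ∈ S.erase r, par v ≠ x) ∧ (∀ v ∈ S.erase r, par v ≠ y)) ∨
    S = {r} ∨
    (∃ s, s ∈ S ∧ s ≠ r ∧ par s = r ∧ (∀ v ∈ S.erase r, par v = r → v = s)) ∨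
    (∃ s l, s ∈ S ∧ l ∈ S ∧ s ≠ r ∧ l ≠ r ∧ l ≠ s ∧ par s = r ∧ par l = r ∧
      (∀ v ∈ S.erase r, par v = r → v = s ∨ v = l) ∧ (∀ v ∈ S.erase r, par v ≠ l)) := by
  by_cases hno : ∃ x y, x ∈ S ∧ y ∈ S ∧ x ≠ r ∧ y ≠ r ∧ x ≠ y ∧ par x = par y ∧
      (∀ v ∈ S.erase r, par v ≠ x) ∧ (∀ v ∈ S.erase r, par v ≠ y)
  · exact Or.inl hno
  right
  -- off-chain vertices are leaves
  have claim1 : ∀ v ∈ S, v ≠ r → v ∉ C → ∀ u ∈ S.erase r, par u ≠ v := by
    classical
    by_contra hcon
    push Not at hcon
    obtain ⟨v0, hv0, hv0r, hv0C, u0, hu0, hu0v⟩ := hcon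
    set Bad := S.filter fun v => v ≠ r ∧ v ∉ C ∧ ∃ u ∈ S.erase r, par u = v with hBad
    have hne : Bad.Nonempty := ⟨v0, by simp only [hBad, Finset.mem_filter]; exact ⟨hv0, hv0r, hv0C, u0, hu0, hu0v⟩⟩
    obtain ⟨v, hv, hmax⟩ := Finset.exists_max_image Bad dep hne
    simp only [hBad, Finset.mem_filter] at hv
    obtain ⟨hvS, hvr, hvC, u1, hu1, hu1v⟩ := hv
    have he := h.heven v hvS hvr hvC
    have hu1m : u1 ∈ ch par S r v := by
      rw [Finset.mem_erase] at hu1
      simp [ch, hu1.1, hu1.2, hu1v]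
    have hpos : 0 < (ch par S r v).card := Finset.card_pos.2 ⟨u1, hu1m⟩
    have h2 : 1 < (ch par S r v).card := by
      obtain ⟨k, hk⟩ := he; omega
    obtain ⟨a, ha, b, hb, hab⟩ := Finset.one_lt_card.1 h2
    have key : ∀ a, a ∈ ch par S r v → a ∈ S ∧ a ≠ r ∧ par a = v ∧ ∀ w ∈ S.erase r, par w ≠ a := by
      intro a ha
      simp only [ch, Finset.mem_filter] at ha
      obtain ⟨haS, har, hav⟩ := ha
      refine ⟨haS, har, hav, ?_⟩
      intro w hw hwa
      have haC : a ∉ C := fun haC => hvC (hav ▸ h.hup a haS har haC)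
      have : a ∈ Bad := by
        simp only [hBad, Finset.mem_filter]
        exact ⟨haS, har, haC, w, hw, hwa⟩
      have h3 := hmax a this
      have h4 := h.hdep a haS har
      rw [hav] at h4
      omega
    obtain ⟨haS, har, hav, haL⟩ := key a ha
    obtain ⟨hbS, hbr, hbv, hbL⟩ := key b hb
    exact hno ⟨a, b, haS, hbS, har, hbr, hab, hav.trans hbv.symm, haL, hbL⟩
  have claim2 : ∀ u ∈ S, ∀ u' ∈ S, u ≠ r → u' ≠ r → u ∉ C → u' ∉ C → par u = r → par u' = r →
      u = u' := by
    intro u hu u' hu' hur hur' huC huC' hp hp'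
    by_contra hne
    exact hno ⟨u, u', hu, hu', hur, hur', hne, hp.trans hp'.symm, claim1 u hu hur huC,
      claim1 u' hu' hur' huC'⟩
  by_cases hs : ∃ s, s ∈ S ∧ s ≠ r ∧ par s = r ∧ s ∈ C
  · obtain ⟨s, hsS, hsr, hps, hsC⟩ := hs
    by_cases hl : ∃ l, l ∈ S ∧ l ≠ r ∧ par l = r ∧ l ∉ C
    · obtain ⟨l, hlS, hlr, hpl, hlC⟩ := hl
      right; right
      refine ⟨s, l, hsS, hlS, hsr, hlr, fun h => hlC (h ▸ hsC), hps, hpl, ?_, claim1 l hlS hlr hlC⟩
      intro v hv hvr
      rw [Finset.mem_erase] at hv
      by_cases hvC : v ∈ C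
      · left
        exact h.hchain v hv.2 s hsS hv.1 hsr hvC hsC (hvr.trans hps.symm)
      · right
        exact claim2 v hv.2 l hlS hv.1 hlr hvC hlC hvr hpl
    · right; left
      refine ⟨s, hsS, hsr, hps, ?_⟩
      intro v hv hvr
      rw [Finset.mem_erase] at hv
      by_cases hvC : v ∈ C
      · exact h.hchain v hv.2 s hsS hv.1 hsr hvC hsC (hvr.trans hps.symm)
      · exact absurd ⟨v, hv.2, hv.1, hvr, hvC⟩ hl
  · by_cases hl : ∃ l, l ∈ S ∧ l ≠ r ∧ par l = r ∧ l ∉ C
    · obtain ⟨l, hlS, hlr, hpl, hlC⟩ := hl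
      right; left
      refine ⟨l, hlS, hlr, hpl, ?_⟩
      intro v hv hvr
      rw [Finset.mem_erase] at hv
      by_cases hvC : v ∈ C
      · exact absurd ⟨v, hv.2, hv.1, hvr, hvC⟩ hs
      · exact claim2 v hv.2 l hlS hv.1 hlr hvC hlC hvr hpl
    · left
      by_contra hne
      have hne' : (S.erase r).Nonempty := by
        rw [Finset.nonempty_iff_ne_empty]
        intro he
        apply hne
        ext v
        simp only [Finset.mem_singleton]
        constructor
        · intro hv
          by_contra hvr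
          have : v ∈ S.erase r := Finset.mem_erase.2 ⟨hvr, hv⟩
          rw [he] at this
          simp at this
        · rintro rfl; exact h.hr
      obtain ⟨v, hv, hmin⟩ := Finset.exists_min_image (S.erase r) dep hne'
      have hv' := Finset.mem_erase.1 hv
      have h1 := h.hpar v hv'.2 hv'.1
      have h2 := h.hdep v hv'.2 hv'.1
      have h3 : par v = r := by
        by_contra h3
        have := hmin (par v) (Finset.mem_erase.2 ⟨h3, h1⟩)
        omega
      by_cases hvC : v ∈ C
      · exact hs ⟨v, hv'.2, hv'.1, h3, hvC⟩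
      · exact hl ⟨v, hv'.2, hv'.1, h3, hvC⟩

section count

variable {W : Type} [Fintype W] [DecidableEq W]

lemma ind_flip (G : W → W → Prop) (b : Bool) (x y : W) :
    ind G (!b) x y = ind (fun a b => G b a) b x y := by
  cases b <;> simp [ind]

lemma NS_flip (G : W → W → Prop) (par : V → V) (o : V → Bool) (S : Finset V) (r : V) (y : W) :
    NS G par (fun v => !o v) S r y = NS (fun a b => G b a) par o S r y := by
  unfold NS FS
  refine Finset.sum_congr rfl fun f _ => ?_
  congr 1
  refine Finset.prod_congr rfl fun v _ => ?_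
  exact ind_flip G (o v) _ _

lemma dOut_flip (G : W → W → Prop) (x : W) : dOut G x = dIn (fun a b => G b a) x := by
  unfold dOut dIn
  refine Finset.sum_congr rfl fun y _ => ?_
  simp [ind]

lemma Tour.flip {G : W → W → Prop} (hG : Tour G) : Tour (fun a b => G b a) := by
  refine ⟨hG.1, fun a b hab => ?_⟩
  exact hG.2 b a hab.symm

lemma NS_single (G : W → W → Prop) (par : V → V) (o : V → Bool) (r : V) (y : W) :
    NS G par o {r} r y = (Fintype.card W : ℝ) ^ (Fintype.card V - 1) := by
  unfold NS FS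
  have h1 : ({r} : Finset V).erase r = ∅ := by simp
  rw [h1]
  simp only [Finset.prod_empty]
  rw [Finset.sum_boole]
  have h2 : (Finset.univ.filter fun f : V → W => f r = y).card =
      Fintype.card W ^ (Fintype.card V - 1) := by
    have e : (Finset.univ.filter fun f : V → W => f r = y).card =
        Fintype.card {f : V → W // f r = y} := by
      rw [Fintype.card_subtype]
    rw [e]
    have e2 : {f : V → W // f r = y} ≃ ({j : V // j ≠ r} → W) :=
      { toFun := fun f j => f.1 j.1
        invFun := fun g => ⟨fun j => if h : j = r then y else g ⟨j, h⟩, by simp⟩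
        left_inv := by
          rintro ⟨f, hf⟩
          ext j
          by_cases h : j = r
          · subst h; simp [hf]
          · simp [h]
        right_inv := by
          intro g
          ext j
          simp [j.2] }
    rw [Fintype.card_congr e2, Fintype.card_fun]
    congr 1
    rw [Fintype.card_subtype_compl, Fintype.card_subtype_eq]
  rw [h2]
  push_cast
  rfl

/-- Cauchy-Schwarz for in-neighbours. -/
lemma cs_in (G : W → W → Prop) (n : W → ℝ) (y : W) :
    (∑ z, ind G true z y * n z) ^ 2 ≤ dIn G y * ∑ z, ind G true z y * n z ^ 2 := by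
  have h := Finset.sum_mul_sq_le_sq_mul_sq Finset.univ (fun z => ind G true z y)
    (fun z => ind G true z y * n z)
  have h1 : ∀ z, ind G true z y * (ind G true z y * n z) = ind G true z y * n z := by
    intro z
    have := ind_sq G true z y
    rw [← mul_assoc, ← sq, this]
  have h2 : ∀ z, (ind G true z y * n z) ^ 2 = ind G true z y * n z ^ 2 := by
    intro z
    have := ind_sq G true z y
    rw [mul_pow, this]
  simp only [h1, h2, ind_sq] at h
  exact h

lemma sum_q (G : W → W → Prop) (n : W → ℝ) :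
    ∑ y, ∑ z, ind G true z y * n z ^ 2 = ∑ z, dOut G z * n z ^ 2 := by
  rw [Finset.sum_comm]
  refine Finset.sum_congr rfl fun z _ => ?_
  rw [← Finset.sum_mul]
  rfl

end count

/-- The rooted bound. -/
def BoundA (par : V → V) (S : Finset V) (r : V) (o : V → Bool) : Prop :=
  ∀ (W : Type) [Fintype W] [DecidableEq W] (G : W → W → Prop), Tour G →
    ∑ y, dOut G y * NS G par o S r y ^ 2 ≤
      ((Fintype.card W : ℝ) ^ 2 / 2) * (1 / 4) ^ (S.card - 1) *
        ((Fintype.card W : ℝ) ^ (Fintype.card V - 1)) ^ 2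

/-- The unrooted bound. -/
def BoundB (par : V → V) (S : Finset V) (r : V) (o : V → Bool) : Prop :=
  ∀ (W : Type) [Fintype W] [DecidableEq W] (G : W → W → Prop), Tour G →
    ∑ y, NS G par o S r y ≤
      (Fintype.card W : ℝ) ^ (Fintype.card V) * (1 / 2) ^ (S.card - 1)

/-- The rooted bound with in-degrees instead of out-degrees, after flipping. -/
lemma boundA_of_flip {S : Finset V} {r : V} {o : V → Bool}
    (h : ∀ (W : Type) [Fintype W] [DecidableEq W] (G : W → W → Prop), Tour G →
      ∑ y, dIn G y * NS G par o S r y ^ 2 ≤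
      ((Fintype.card W : ℝ) ^ 2 / 2) * (1 / 4) ^ (S.card - 1) *
        ((Fintype.card W : ℝ) ^ (Fintype.card V - 1)) ^ 2) :
    BoundA par S r (fun v => !o v) := by
  intro W _ _ G hG
  have := h W (fun a b => G b a) hG.flip
  simpa only [NS_flip, dOut_flip] using this

/-- Both bounds, pair removal. -/
lemma bound_pair {S : Finset V} {r x y : V} {o : V → Bool} (h : Hyp par dep C S r)
    (hx : x ∈ S) (hy : y ∈ S) (hxr : x ≠ r) (hyr : y ≠ r) (hxy : x ≠ y)
    (hp : par x = par y)
    (hcx : ∀ v ∈ S.erase r, par v ≠ x) (hcy : ∀ v ∈ S.erase r, par v ≠ y)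
    (ox : o x = true) (oy : o y = false) :
    (BoundA par ((S.erase x).erase y) r o → BoundA par S r o) ∧
    (BoundB par ((S.erase x).erase y) r o → BoundB par S r o) := by
  have hcard : S.card - 1 = (((S.erase x).erase y).card - 1) + 2 := by
    have h1 : y ∈ S.erase x := Finset.mem_erase.2 ⟨hxy.symm, hy⟩
    have h2 : r ∈ (S.erase x).erase y := by simp [hxr.symm, hyr.symm, h.hr]
    have h3 : 0 < ((S.erase x).erase y).card := Finset.card_pos.2 ⟨r, h2⟩
    have h4 := Finset.card_erase_of_mem h1
    have h5 := Finset.card_erase_of_mem hx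
    omega
  have hvx : par x ≠ x := h.par_ne hx hxr
  have hvy : par x ≠ y := hp ▸ h.par_ne hy hyr
  constructor
  · intro hA W _ _ G hG
    have hA' := hA W G hG
    have hle := fun z => pair_removal G hG par o S r x y hx hy hxr hyr hxy hp hvx hvy hcx hcy ox oy z
    rw [hcard, pow_add]
    calc ∑ z, dOut G z * NS G par o S r z ^ 2
        ≤ ∑ z, (1 / 4) ^ 2 * (dOut G z * NS G par o ((S.erase x).erase y) r z ^ 2) := by
          refine Finset.sum_le_sum fun z _ => ?_
          have h1 : NS G par o S r z ^ 2 ≤ ((1 / 4) * NS G par o ((S.erase x).erase y) r z) ^ 2 :=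
            pow_le_pow_left₀ (NS_nonneg _ _ _ _ _ _) (hle z) 2
          have h2 := mul_le_mul_of_nonneg_left h1 (dOut_nonneg G z)
          calc _ ≤ _ := h2
            _ = _ := by ring
      _ = (1 / 4) ^ 2 * ∑ z, dOut G z * NS G par o ((S.erase x).erase y) r z ^ 2 := by
          rw [Finset.mul_sum]
      _ ≤ (1 / 4) ^ 2 * _ := by
          exact mul_le_mul_of_nonneg_left hA' (by positivity)
      _ = _ := by ring
  · intro hB W _ _ G hG
    have hB' := hB W G hG
    have hle := fun z => pair_removal G hG par o S r x y hx hy hxr hyr hxy hp hvx hvy hcx hcy ox oy z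
    rw [hcard, pow_add]
    calc ∑ z, NS G par o S r z
        ≤ ∑ z, (1 / 4) * NS G par o ((S.erase x).erase y) r z :=
          Finset.sum_le_sum fun z _ => hle z
      _ = (1 / 4) * ∑ z, NS G par o ((S.erase x).erase y) r z := by
          rw [Finset.mul_sum]
      _ ≤ (1 / 4) * _ := by
          exact mul_le_mul_of_nonneg_left hB' (by positivity)
      _ = _ := by ring

lemma boundA_congr {S : Finset V} {r : V} {o o' : V → Bool}
    (h : ∀ v ∈ S.erase r, o v = o' v) (hA : BoundA par S r o) : BoundA par S r o' := by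
  intro W _ _ G hG
  have := hA W G hG
  simpa only [NS_congr G par o o' S r h] using this

lemma boundB_congr {S : Finset V} {r : V} {o o' : V → Bool}
    (h : ∀ v ∈ S.erase r, o v = o' v) (hA : BoundB par S r o) : BoundB par S r o' := by
  intro W _ _ G hG
  have := hA W G hG
  simpa only [NS_congr G par o o' S r h] using this

/-- rooted step, one child -/
lemma boundA_step {S : Finset V} {r s : V} {o : V → Bool}
    (hs : s ∈ S) (hr : r ∈ S) (hsr : s ≠ r) (hpar : par s = r)
    (hc : ∀ v ∈ S.erase r, par v = r → v = s)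
    (os : o s = true) (hA : BoundA par (S.erase r) s o) : BoundA par S r o := by
  intro W _ _ G hG
  have hA' := hA W G hG
  set m : ℝ := (Fintype.card W : ℝ) with hm
  have hstep := fun y => root_step G par o S r s hs hsr hpar hc os y
  have hcard : S.card - 1 = ((S.erase r).card - 1) + 1 := by
    have h3 : 0 < (S.erase r).card := Finset.card_pos.2 ⟨s, Finset.mem_erase.2 ⟨hsr, hs⟩⟩
    have h5 := Finset.card_erase_of_mem hr
    omega
  rcases isEmpty_or_nonempty W with hW | hW
  · simp only [Finset.univ_eq_empty, Finset.sum_empty]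
    positivity
  have hpos : 0 < m := by
    rw [hm]; exact_mod_cast Fintype.card_pos
  have key : m ^ 2 * ∑ y, dOut G y * NS G par o S r y ^ 2 ≤
      m ^ 2 * ((m ^ 2 / 2) * (1 / 4) ^ (S.card - 1) * (m ^ (Fintype.card V - 1)) ^ 2) := by
    calc m ^ 2 * ∑ y, dOut G y * NS G par o S r y ^ 2
        = ∑ y, dOut G y * (m * NS G par o S r y) ^ 2 := by
          rw [Finset.mul_sum]
          refine Finset.sum_congr rfl fun y _ => ?_
          ring
      _ = ∑ y, dOut G y * (∑ z, ind G true z y * NS G par o (S.erase r) s z) ^ 2 := by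
          refine Finset.sum_congr rfl fun y _ => ?_
          rw [hstep y]
      _ ≤ ∑ y, (m ^ 2 / 4) * ∑ z, ind G true z y * NS G par o (S.erase r) s z ^ 2 := by
          refine Finset.sum_le_sum fun y _ => ?_
          have h1 := cs_in G (fun z => NS G par o (S.erase r) s z) y
          have h2 := dd_le G hG y
          have h3 : 0 ≤ ∑ z, ind G true z y * NS G par o (S.erase r) s z ^ 2 :=
            Finset.sum_nonneg fun z _ => mul_nonneg (ind_nonneg _ _ _ _) (sq_nonneg _)
          calc dOut G y * (∑ z, ind G true z y * NS G par o (S.erase r) s z) ^ 2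
              ≤ dOut G y * (dIn G y * ∑ z, ind G true z y * NS G par o (S.erase r) s z ^ 2) :=
                mul_le_mul_of_nonneg_left h1 (dOut_nonneg G y)
            _ = (dOut G y * dIn G y) * ∑ z, ind G true z y * NS G par o (S.erase r) s z ^ 2 := by
                ring
            _ ≤ _ := mul_le_mul_of_nonneg_right h2 h3
      _ = (m ^ 2 / 4) * ∑ z, dOut G z * NS G par o (S.erase r) s z ^ 2 := by
          rw [← Finset.mul_sum, sum_q]
      _ ≤ (m ^ 2 / 4) * ((m ^ 2 / 2) * (1 / 4) ^ ((S.erase r).card - 1) *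
            (m ^ (Fintype.card V - 1)) ^ 2) :=
          mul_le_mul_of_nonneg_left hA' (by positivity)
      _ = _ := by rw [hcard, pow_succ]; ring
  exact le_of_mul_le_mul_left key (by positivity)

/-- rooted step, one child and one leaf; gives the in-degree version -/
lemma boundA_step2 {S : Finset V} {r s l : V} {o : V → Bool}
    (hs : s ∈ S) (hr : r ∈ S) (hl : l ∈ S) (hsr : s ≠ r) (hlr : l ≠ r) (hls : l ≠ s)
    (hpar : par s = r) (hparl : par l = r)
    (hc : ∀ v ∈ S.erase r, par v = r → v = s ∨ v = l) (hcl : ∀ v ∈ S.erase r, par v ≠ l)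
    (os : o s = true) (ol : o l = false) (hA : BoundA par ((S.erase r).erase l) s o) :
    BoundA par S r (fun v => !o v) := by
  apply boundA_of_flip
  intro W _ _ G hG
  have hA' := hA W G hG
  set m : ℝ := (Fintype.card W : ℝ) with hm
  have hstep := fun y => root_step2 G par o S r s l hs hl hsr hlr hls hpar hparl hc hcl os ol y
  have hcard : S.card - 1 = (((S.erase r).erase l).card - 1) + 2 := by
    have h2 : s ∈ (S.erase r).erase l := by simp [hsr, hs, hls.symm]
    have h3 : 0 < ((S.erase r).erase l).card := Finset.card_pos.2 ⟨s, h2⟩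
    have h4 : l ∈ S.erase r := Finset.mem_erase.2 ⟨hlr, hl⟩
    have h5 := Finset.card_erase_of_mem hr
    have h6 := Finset.card_erase_of_mem h4
    omega
  rcases isEmpty_or_nonempty W with hW | hW
  · simp only [Finset.univ_eq_empty, Finset.sum_empty]
    positivity
  have hpos : 0 < m := by
    rw [hm]; exact_mod_cast Fintype.card_pos
  have key : m ^ 4 * ∑ y, dIn G y * NS G par o S r y ^ 2 ≤
      m ^ 4 * ((m ^ 2 / 2) * (1 / 4) ^ (S.card - 1) * (m ^ (Fintype.card V - 1)) ^ 2) := by
    calc m ^ 4 * ∑ y, dIn G y * NS G par o S r y ^ 2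
        = ∑ y, dIn G y * (m ^ 2 * NS G par o S r y) ^ 2 := by
          rw [Finset.mul_sum]
          refine Finset.sum_congr rfl fun y _ => ?_
          ring
      _ = ∑ y, dIn G y * (dOut G y *
            ∑ z, ind G true z y * NS G par o ((S.erase r).erase l) s z) ^ 2 := by
          refine Finset.sum_congr rfl fun y _ => ?_
          rw [hstep y]
      _ ≤ ∑ y, (m ^ 2 / 4) ^ 2 *
            ∑ z, ind G true z y * NS G par o ((S.erase r).erase l) s z ^ 2 := by
          refine Finset.sum_le_sum fun y _ => ?_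
          have h1 := cs_in G (fun z => NS G par o ((S.erase r).erase l) s z) y
          have h2 := dd_le G hG y
          have h3 : 0 ≤ ∑ z, ind G true z y * NS G par o ((S.erase r).erase l) s z ^ 2 :=
            Finset.sum_nonneg fun z _ => mul_nonneg (ind_nonneg _ _ _ _) (sq_nonneg _)
          have h4 : 0 ≤ dOut G y * dIn G y := mul_nonneg (dOut_nonneg _ _) (dIn_nonneg _ _)
          have h5 : (dOut G y * dIn G y) ^ 2 ≤ (m ^ 2 / 4) ^ 2 := pow_le_pow_left₀ h4 h2 2
          calc dIn G y * (dOut G y *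
                ∑ z, ind G true z y * NS G par o ((S.erase r).erase l) s z) ^ 2
              = (dIn G y * dOut G y ^ 2) *
                (∑ z, ind G true z y * NS G par o ((S.erase r).erase l) s z) ^ 2 := by ring
            _ ≤ (dIn G y * dOut G y ^ 2) * (dIn G y *
                ∑ z, ind G true z y * NS G par o ((S.erase r).erase l) s z ^ 2) :=
                mul_le_mul_of_nonneg_left h1
                  (mul_nonneg (dIn_nonneg _ _) (sq_nonneg _))
            _ = (dOut G y * dIn G y) ^ 2 *
                ∑ z, ind G true z y * NS G par o ((S.erase r).erase l) s z ^ 2 := by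
                ring
            _ ≤ _ := mul_le_mul_of_nonneg_right h5 h3
      _ = (m ^ 2 / 4) ^ 2 * ∑ z, dOut G z * NS G par o ((S.erase r).erase l) s z ^ 2 := by
          rw [← Finset.mul_sum, sum_q]
      _ ≤ (m ^ 2 / 4) ^ 2 * ((m ^ 2 / 2) * (1 / 4) ^ (((S.erase r).erase l).card - 1) *
            (m ^ (Fintype.card V - 1)) ^ 2) :=
          mul_le_mul_of_nonneg_left hA' (by positivity)
      _ = _ := by rw [hcard, pow_add]; ring
  exact le_of_mul_le_mul_left key (by positivity)

/-- base case -/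
lemma boundA_single (r : V) (o : V → Bool) : BoundA par {r} r o := by
  intro W _ _ G hG
  simp only [NS_single, Finset.card_singleton, Nat.sub_self, pow_zero, mul_one]
  rw [← Finset.sum_mul]
  exact mul_le_mul_of_nonneg_right (sum_dOut_le G hG) (by positivity)

/-- Main rooted theorem. -/
theorem main_A (n : ℕ) : ∀ (S : Finset V) (r : V), S.card = n → Hyp par dep C S r →
    ∃ o : V → Bool, BoundA par S r o := by
  induction n using Nat.strong_induction_on with
  | _ n ih =>
  intro S r hn h
  rcases h.cases with ⟨x, y, hx, hy, hxr, hyr, hxy, hp, hcx, hcy⟩ | hS | ⟨s, hs, hsr, hps, hc⟩ |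
    ⟨s, l, hs, hl, hsr, hlr, hls, hps, hpl, hc, hcl⟩
  · have hlt : ((S.erase x).erase y).card < n := by
      rw [← hn]
      exact lt_of_le_of_lt (Finset.card_erase_le) (Finset.card_erase_lt_of_mem hx)
    obtain ⟨o, ho⟩ := ih _ hlt _ r rfl (h.remove_pair hx hy hxr hyr hxy hp hcx hcy)
    refine ⟨Function.update (Function.update o x true) y false, ?_⟩
    refine (bound_pair h hx hy hxr hyr hxy hp hcx hcy ?_ ?_).1 ?_
    · rw [Function.update_of_ne hxy, Function.update_self]
    · rw [Function.update_self]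
    · refine boundA_congr ?_ ho
      intro v hv
      simp only [Finset.mem_erase] at hv
      rw [Function.update_of_ne hv.2.1, Function.update_of_ne hv.2.2.1]
  · subst hS
    exact ⟨fun _ => true, boundA_single r _⟩
  · have hlt : (S.erase r).card < n := by
      rw [← hn]; exact Finset.card_erase_lt_of_mem h.hr
    obtain ⟨o, ho⟩ := ih _ hlt _ s rfl (h.remove_root hs hsr hps hc)
    refine ⟨Function.update o s true, ?_⟩
    refine boundA_step hs h.hr hsr hps hc (Function.update_self ..) ?_
    refine boundA_congr ?_ ho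
    intro v hv
    rw [Function.update_of_ne (Finset.ne_of_mem_erase hv)]
  · have hlt : ((S.erase r).erase l).card < n := by
      rw [← hn]
      exact lt_of_le_of_lt (Finset.card_erase_le) (Finset.card_erase_lt_of_mem h.hr)
    obtain ⟨o, ho⟩ := ih _ hlt _ s rfl (h.remove_root_leaf hs hsr hps hlr hls hpl hc hcl)
    refine ⟨_, boundA_step2 (o := Function.update (Function.update o s true) l false)
      hs h.hr hl hsr hlr hls hps hpl hc hcl ?_ ?_ ?_⟩
    · rw [Function.update_of_ne hls.symm, Function.update_self]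
    · rw [Function.update_self]
    · refine boundA_congr ?_ ho
      intro v hv
      simp only [Finset.mem_erase] at hv
      rw [Function.update_of_ne hv.2.1, Function.update_of_ne hv.1]

/-- unrooted step, one child -/
lemma boundB_step {S : Finset V} {r s : V} {o : V → Bool}
    (hs : s ∈ S) (hr : r ∈ S) (hsr : s ≠ r) (hpar : par s = r)
    (hc : ∀ v ∈ S.erase r, par v = r → v = s)
    (os : o s = true) (hA : BoundA par (S.erase r) s o) : BoundB par S r o := by
  intro W _ _ G hG
  have hA' := hA W G hG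
  set m : ℝ := (Fintype.card W : ℝ) with hm
  have hstep := fun y => root_step G par o S r s hs hsr hpar hc os y
  have hcard : S.card - 1 = ((S.erase r).card - 1) + 1 := by
    have h3 : 0 < (S.erase r).card := Finset.card_pos.2 ⟨s, Finset.mem_erase.2 ⟨hsr, hs⟩⟩
    have h5 := Finset.card_erase_of_mem hr
    omega
  have hVpos : 0 < Fintype.card V := Fintype.card_pos_iff.2 ⟨r⟩
  rcases isEmpty_or_nonempty W with hW | hW
  · simp only [Finset.univ_eq_empty, Finset.sum_empty]
    positivity
  have hpos : 0 < m := by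
    rw [hm]; exact_mod_cast Fintype.card_pos
  set k := (S.erase r).card - 1 with hk
  have e1 : m * ∑ y, NS G par o S r y = ∑ z, dOut G z * NS G par o (S.erase r) s z := by
    rw [Finset.mul_sum]
    simp only [hm] at hstep ⊢
    simp_rw [hstep]
    rw [Finset.sum_comm]
    refine Finset.sum_congr rfl fun z _ => ?_
    rw [← Finset.sum_mul]
    rfl
  -- Cauchy-Schwarz
  have e2 : (∑ z, dOut G z * NS G par o (S.erase r) s z) ^ 2 ≤
      (∑ z, dOut G z) * ∑ z, dOut G z * NS G par o (S.erase r) s z ^ 2 := by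
    have h := Finset.sum_mul_sq_le_sq_mul_sq Finset.univ (fun z => Real.sqrt (dOut G z))
      (fun z => Real.sqrt (dOut G z) * NS G par o (S.erase r) s z)
    have h1 : ∀ z, Real.sqrt (dOut G z) * (Real.sqrt (dOut G z) * NS G par o (S.erase r) s z) =
        dOut G z * NS G par o (S.erase r) s z := by
      intro z
      rw [← mul_assoc, Real.mul_self_sqrt (dOut_nonneg G z)]
    have h2 : ∀ z, (Real.sqrt (dOut G z) * NS G par o (S.erase r) s z) ^ 2 =
        dOut G z * NS G par o (S.erase r) s z ^ 2 := by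
      intro z
      rw [mul_pow, Real.sq_sqrt (dOut_nonneg G z)]
    have h3 : ∀ z, Real.sqrt (dOut G z) ^ 2 = dOut G z := fun z => Real.sq_sqrt (dOut_nonneg G z)
    simp only [h1, h2, h3] at h
    exact h
  have e3 : (∑ z, dOut G z * NS G par o (S.erase r) s z) ^ 2 ≤
      ((m ^ 2 / 2) * (1 / 2) ^ k * m ^ (Fintype.card V - 1)) ^ 2 := by
    calc _ ≤ _ := e2
      _ ≤ (m ^ 2 / 2) * ((m ^ 2 / 2) * (1 / 4) ^ k * (m ^ (Fintype.card V - 1)) ^ 2) := by
          refine mul_le_mul (sum_dOut_le G hG) hA' ?_ (by positivity)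
          exact Finset.sum_nonneg fun z _ => mul_nonneg (dOut_nonneg _ _) (sq_nonneg _)
      _ = _ := by
          have : ((1:ℝ) / 4) ^ k = ((1 / 2) ^ k) ^ 2 := by
            rw [← pow_mul, mul_comm, pow_mul]; norm_num
          rw [this]; ring
  have e4 : ∑ z, dOut G z * NS G par o (S.erase r) s z ≤
      (m ^ 2 / 2) * (1 / 2) ^ k * m ^ (Fintype.card V - 1) :=
    le_of_sq_le_sq e3 (by positivity)
  rw [← e1] at e4
  have e5 : m * ∑ y, NS G par o S r y ≤ m * (m ^ (Fintype.card V) * (1 / 2) ^ (S.card - 1)) := by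
    calc _ ≤ _ := e4
      _ = _ := by
        rw [hcard, pow_succ]
        have : m ^ (Fintype.card V) = m ^ (Fintype.card V - 1) * m := by
          rw [← pow_succ]; congr 1; omega
        rw [this]; ring
  exact le_of_mul_le_mul_left e5 hpos

/-- unrooted step, one child and one leaf -/
lemma boundB_step2 {S : Finset V} {r s l : V} {o : V → Bool}
    (hs : s ∈ S) (hr : r ∈ S) (hl : l ∈ S) (hsr : s ≠ r) (hlr : l ≠ r) (hls : l ≠ s)
    (hpar : par s = r) (hparl : par l = r)
    (hc : ∀ v ∈ S.erase r, par v = r → v = s ∨ v = l) (hcl : ∀ v ∈ S.erase r, par v ≠ l)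
    (os : o s = true) (ol : o l = false) (hA : BoundA par ((S.erase r).erase l) s o) :
    BoundB par S r o := by
  intro W _ _ G hG
  have hA' := hA W G hG
  set m : ℝ := (Fintype.card W : ℝ) with hm
  have hstep := fun y => root_step2 G par o S r s l hs hl hsr hlr hls hpar hparl hc hcl os ol y
  have hcard : S.card - 1 = (((S.erase r).erase l).card - 1) + 2 := by
    have h2 : s ∈ (S.erase r).erase l := by simp [hsr, hs, hls.symm]
    have h3 : 0 < ((S.erase r).erase l).card := Finset.card_pos.2 ⟨s, h2⟩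
    have h4 : l ∈ S.erase r := Finset.mem_erase.2 ⟨hlr, hl⟩
    have h5 := Finset.card_erase_of_mem hr
    have h6 := Finset.card_erase_of_mem h4
    omega
  have hVpos : 0 < Fintype.card V := Fintype.card_pos_iff.2 ⟨r⟩
  rcases isEmpty_or_nonempty W with hW | hW
  · simp only [Finset.univ_eq_empty, Finset.sum_empty]
    positivity
  have hpos : 0 < m := by
    rw [hm]; exact_mod_cast Fintype.card_pos
  set k := ((S.erase r).erase l).card - 1 with hk
  set N : W → ℝ := fun z => NS G par o ((S.erase r).erase l) s z with hN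
  set e : W → ℝ := fun y => ∑ z, ind G true z y * N z with he
  set q : W → ℝ := fun y => ∑ z, ind G true z y * N z ^ 2 with hq
  have hqnn : ∀ y, 0 ≤ q y := fun y =>
    Finset.sum_nonneg fun z _ => mul_nonneg (ind_nonneg _ _ _ _) (sq_nonneg _)
  have e1 : m ^ 2 * ∑ y, NS G par o S r y = ∑ y, dOut G y * e y := by
    rw [Finset.mul_sum]
    refine Finset.sum_congr rfl fun y _ => ?_
    exact hstep y
  have e2 : (∑ y, dOut G y * e y) ^ 2 ≤ (∑ y, dOut G y) * ∑ y, dOut G y * e y ^ 2 := by
    have h := Finset.sum_mul_sq_le_sq_mul_sq Finset.univ (fun z => Real.sqrt (dOut G z))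
      (fun z => Real.sqrt (dOut G z) * e z)
    have h1 : ∀ z, Real.sqrt (dOut G z) * (Real.sqrt (dOut G z) * e z) = dOut G z * e z := by
      intro z
      rw [← mul_assoc, Real.mul_self_sqrt (dOut_nonneg G z)]
    have h2 : ∀ z, (Real.sqrt (dOut G z) * e z) ^ 2 = dOut G z * e z ^ 2 := by
      intro z
      rw [mul_pow, Real.sq_sqrt (dOut_nonneg G z)]
    have h3 : ∀ z, Real.sqrt (dOut G z) ^ 2 = dOut G z := fun z => Real.sq_sqrt (dOut_nonneg G z)
    simp only [h1, h2, h3] at h
    exact h
  have e2' : ∑ y, dOut G y * e y ^ 2 ≤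
      (m ^ 2 / 4) * ((m ^ 2 / 2) * (1 / 4) ^ k * (m ^ (Fintype.card V - 1)) ^ 2) := by
    calc ∑ y, dOut G y * e y ^ 2 ≤ ∑ y, (m ^ 2 / 4) * q y := by
          refine Finset.sum_le_sum fun y _ => ?_
          have h1 := cs_in G N y
          have h2 := dd_le G hG y
          calc dOut G y * e y ^ 2 ≤ dOut G y * (dIn G y * q y) :=
                mul_le_mul_of_nonneg_left h1 (dOut_nonneg G y)
            _ = (dOut G y * dIn G y) * q y := by ring
            _ ≤ _ := mul_le_mul_of_nonneg_right h2 (hqnn y)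
      _ = (m ^ 2 / 4) * ∑ z, dOut G z * N z ^ 2 := by
          rw [← Finset.mul_sum, sum_q]
      _ ≤ _ := mul_le_mul_of_nonneg_left hA' (by positivity)
  have e3 : (∑ y, dOut G y * e y) ^ 2 ≤
      ((m ^ 2 / 2) * (m / 2) * (1 / 2) ^ k * m ^ (Fintype.card V - 1)) ^ 2 := by
    calc _ ≤ _ := e2
      _ ≤ (m ^ 2 / 2) * ((m ^ 2 / 4) *
            ((m ^ 2 / 2) * (1 / 4) ^ k * (m ^ (Fintype.card V - 1)) ^ 2)) := by
          refine mul_le_mul (sum_dOut_le G hG) e2' ?_ (by positivity)
          exact Finset.sum_nonneg fun z _ => mul_nonneg (dOut_nonneg _ _) (sq_nonneg _)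
      _ = _ := by
          have : ((1:ℝ) / 4) ^ k = ((1 / 2) ^ k) ^ 2 := by
            rw [← pow_mul, mul_comm, pow_mul]; norm_num
          rw [this]; ring
  have e4 : ∑ y, dOut G y * e y ≤
      (m ^ 2 / 2) * (m / 2) * (1 / 2) ^ k * m ^ (Fintype.card V - 1) :=
    le_of_sq_le_sq e3 (by positivity)
  rw [← e1] at e4
  have e5 : m ^ 2 * ∑ y, NS G par o S r y ≤
      m ^ 2 * (m ^ (Fintype.card V) * (1 / 2) ^ (S.card - 1)) := by
    calc _ ≤ _ := e4
      _ = _ := by
        rw [hcard, pow_add]
        have : m ^ (Fintype.card V) = m ^ (Fintype.card V - 1) * m := by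
          rw [← pow_succ]; congr 1; omega
        rw [this]; ring
  exact le_of_mul_le_mul_left e5 (by positivity)

/-- base case -/
lemma boundB_single (r : V) (o : V → Bool) : BoundB par {r} r o := by
  intro W _ _ G hG
  have hVpos : 0 < Fintype.card V := Fintype.card_pos_iff.2 ⟨r⟩
  simp only [NS_single, Finset.card_singleton, Nat.sub_self, pow_zero, mul_one,
    Finset.sum_const, Finset.card_univ, nsmul_eq_mul]
  rw [← pow_succ']
  apply le_of_eq
  congr 1
  omega

/-- Main unrooted theorem. -/
theorem main_B (n : ℕ) : ∀ (S : Finset V) (r : V), S.card = n → Hyp par dep C S r →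
    ∃ o : V → Bool, BoundB par S r o := by
  induction n using Nat.strong_induction_on with
  | _ n ih =>
  intro S r hn h
  rcases h.cases with ⟨x, y, hx, hy, hxr, hyr, hxy, hp, hcx, hcy⟩ | hS | ⟨s, hs, hsr, hps, hc⟩ |
    ⟨s, l, hs, hl, hsr, hlr, hls, hps, hpl, hc, hcl⟩
  · have hlt : ((S.erase x).erase y).card < n := by
      rw [← hn]
      exact lt_of_le_of_lt (Finset.card_erase_le) (Finset.card_erase_lt_of_mem hx)
    obtain ⟨o, ho⟩ := ih _ hlt _ r rfl (h.remove_pair hx hy hxr hyr hxy hp hcx hcy)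
    refine ⟨Function.update (Function.update o x true) y false, ?_⟩
    refine (bound_pair h hx hy hxr hyr hxy hp hcx hcy ?_ ?_).2 ?_
    · rw [Function.update_of_ne hxy, Function.update_self]
    · rw [Function.update_self]
    · refine boundB_congr ?_ ho
      intro v hv
      simp only [Finset.mem_erase] at hv
      rw [Function.update_of_ne hv.2.1, Function.update_of_ne hv.2.2.1]
  · subst hS
    exact ⟨fun _ => true, boundB_single r _⟩
  · obtain ⟨o, ho⟩ := main_A _ _ s rfl (h.remove_root hs hsr hps hc)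
    refine ⟨Function.update o s true, ?_⟩
    refine boundB_step hs h.hr hsr hps hc (Function.update_self ..) ?_
    refine boundA_congr ?_ ho
    intro v hv
    rw [Function.update_of_ne (Finset.ne_of_mem_erase hv)]
  · obtain ⟨o, ho⟩ := main_A _ _ s rfl (h.remove_root_leaf hs hsr hps hlr hls hpl hc hcl)
    refine ⟨_, boundB_step2 (o := Function.update (Function.update o s true) l false)
      hs h.hr hl hsr hlr hls hps hpl hc hcl ?_ ?_ ?_⟩
    · rw [Function.update_of_ne hls.symm, Function.update_self]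
    · rw [Function.update_self]
    · refine boundA_congr ?_ ho
      intro v hv
      simp only [Finset.mem_erase] at hv
      rw [Function.update_of_ne hv.2.1, Function.update_of_ne hv.1]

end

end Pool.Agent.AntiSid
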