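import Pool.Agent.AntiSid.Tree

set_option autoImplicit false

namespace Pool.Agent.AntiSid.PathEvenStatement

/-- Every tree all of whose vertices of even degree lie on one path has an orientation which is
anti-Sidorenko in tournaments. -/
theorem result (n : ℕ) (T : SimpleGraph (Fin n)) (hT : T.IsTree)
    (a b : Fin n) (p : T.Walk a b) (hp : p.IsPath)
    (hev : ∀ v : Fin n, Even (T.neighborSet v).ncard → v ∈ p.support) :
    ∃ D : Fin n → Fin n → Prop,
      (∀ u v, T.Adj u v → (D u v ∨ D v u)) ∧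
      (∀ u v, D u v → (T.Adj u v ∧ ¬ D v u)) ∧
      ∀ m : ℕ, ∀ G : Fin m → Fin m → Prop,
        (∀ a, ¬ G a a) →
        (∀ a b, a ≠ b → (G a b ↔ ¬ G b a)) →
        (({f : Fin n → Fin m | ∀ u v, D u v → G (f u) (f v)}.ncard : ℝ) / (m : ℝ) ^ n
          ≤ ((1 : ℝ) / 2) ^ (T.edgeSet.ncard)) := by
  obtain ⟨D, h1, h2, h3⟩ := Pool.Agent.AntiSid.pathEven_general hT p hp hev
  refine ⟨D, h1, h2, ?_⟩
  intro m G hG1 hG2
  have h4 := h3 (Fin m) G ⟨hG1, hG2⟩
  simp only [Fintype.card_fin] at h4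
  rcases Nat.eq_zero_or_pos m with hm | hm
  · subst hm
    have hn : n ≠ 0 := by
      rintro rfl
      exact a.elim0
    simp [hn]
  · have hpos : (0 : ℝ) < (m : ℝ) ^ n := by positivity
    rw [div_le_iff₀ hpos]
    calc _ ≤ _ := h4
      _ = _ := by ring

end Pool.Agent.AntiSid.PathEvenStatement
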