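import Pool.Agent.AntiSid.Induct

set_option autoImplicit false

namespace Pool.Agent.AntiSid

open Finset

noncomputable section

set_option linter.unusedSectionVars false

variable {V : Type} [Fintype V] [DecidableEq V]

/-- Parent function of a tree rooted at `b`. -/
lemma exists_parent {T : SimpleGraph V} (hT : T.IsTree) (b : V) :
    ∃ par : V → V, par b = b ∧ (∀ v, v ≠ b → T.Adj v (par v)) ∧
      (∀ v, v ≠ b → T.dist (par v) b < T.dist v b) := by
  have h : ∀ v, ∃ u, (v = b → u = b) ∧ (v ≠ b → (T.Adj v u ∧ T.dist u b < T.dist v b)) := by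
    intro v
    by_cases hv : v = b
    · exact ⟨b, fun _ => rfl, fun h => absurd hv h⟩
    · obtain ⟨p, hp⟩ := hT.1.exists_walk_length_eq_dist v b
      cases p with
      | nil => exact absurd rfl hv
      | @cons _ w _ hadj q =>
        refine ⟨w, fun h => absurd h hv, fun _ => ⟨hadj, ?_⟩⟩
        have h1 := SimpleGraph.dist_le q
        rw [SimpleGraph.Walk.length_cons] at hp
        omega
  choose par hpar using h
  exact ⟨par, (hpar b).1 rfl, fun v hv => ((hpar v).2 hv).1, fun v hv => ((hpar v).2 hv).2⟩

lemma adj_iff_parent {T : SimpleGraph V} (hT : T.IsTree) (b : V) (par : V → V)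
    (h1 : ∀ v, v ≠ b → T.Adj v (par v)) (h2 : ∀ v, v ≠ b → T.dist (par v) b < T.dist v b)
    {u v : V} (huv : T.Adj u v) : (u ≠ b ∧ par u = v) ∨ (v ≠ b ∧ par v = u) := by
  classical
  have hcard := hT.card_edgeFinset
  set I : Finset (Sym2 V) := (Finset.univ.erase b).image fun v => s(v, par v) with hI
  have hinj : Set.InjOn (fun v => s(v, par v)) ((Finset.univ.erase b : Finset V) : Set V) := by
    intro x hx y hy hxy
    simp only [Finset.coe_erase, Finset.coe_univ, Set.mem_diff, Set.mem_univ,
      Set.mem_singleton_iff, true_and] at hx hy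
    simp only [Sym2.eq_iff] at hxy
    rcases hxy with h | h
    · exact h.1
    · have h3 := h2 x hx
      have h4 := h2 y hy
      rw [h.2] at h3
      rw [← h.1] at h4
      omega
  have hIcard : I.card + 1 = Fintype.card V := by
    rw [hI, Finset.card_image_of_injOn hinj, Finset.card_erase_of_mem (Finset.mem_univ b),
      Finset.card_univ]
    have : 0 < Fintype.card V := Fintype.card_pos_iff.2 ⟨b⟩
    omega
  have hsub : I ⊆ T.edgeFinset := by
    intro e he
    simp only [hI, Finset.mem_image, Finset.mem_erase, Finset.mem_univ, and_true] at he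
    obtain ⟨v, hv, rfl⟩ := he
    rw [SimpleGraph.mem_edgeFinset, SimpleGraph.mem_edgeSet]
    exact h1 v hv
  have heq : I = T.edgeFinset := Finset.eq_of_subset_of_card_le hsub (by omega)
  have hmem : s(u, v) ∈ I := by
    rw [heq, SimpleGraph.mem_edgeFinset, SimpleGraph.mem_edgeSet]; exact huv
  simp only [hI, Finset.mem_image, Finset.mem_erase, Finset.mem_univ, and_true, Sym2.eq_iff] at hmem
  obtain ⟨w, hw, h | h⟩ := hmem
  · left; obtain ⟨rfl, h⟩ := h; exact ⟨hw, h⟩
  · right; obtain ⟨rfl, h⟩ := h; exact ⟨hw, h⟩

/-- A path ending at the root follows parents. -/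
lemma path_snd {T : SimpleGraph V} (b : V) (par : V → V)
    (hadj : ∀ u v, T.Adj u v → (u ≠ b ∧ par u = v) ∨ (v ≠ b ∧ par v = u)) :
    ∀ {u v : V} (h : T.Adj u v) (q : T.Walk v b), (SimpleGraph.Walk.cons h q).IsPath →
      par u = v := by
  intro u v h q
  induction q generalizing u with
  | nil =>
    intro _
    rcases hadj _ _ h with h1 | h1
    · exact h1.2
    · exact absurd rfl h1.1
  | @cons v w b h' q' ih =>
    intro hp
    have hp' := hp
    rw [SimpleGraph.Walk.cons_isPath_iff] at hp'
    have h3 := ih hadj h' hp'.1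
    rcases hadj _ _ h with h1 | h1
    · exact h1.2
    · exfalso
      apply hp'.2
      rw [← h1.2, h3]
      simp

lemma path_support {T : SimpleGraph V} (b : V) (par : V → V)
    (hadj : ∀ u v, T.Adj u v → (u ≠ b ∧ par u = v) ∨ (v ≠ b ∧ par v = u)) :
    ∀ {a : V} (p : T.Walk a b), p.IsPath → ∀ x ∈ p.support, ∃ i, par^[i] a = x := by
  intro a p
  induction p with
  | nil =>
    intro _ x hx
    simp at hx
    exact ⟨0, hx.symm⟩
  | @cons a v b h q ih =>
    intro hp x hx
    have h1 := path_snd b par hadj h q hp
    rw [SimpleGraph.Walk.support_cons, List.mem_cons] at hx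
    rcases hx with rfl | hx
    · exact ⟨0, rfl⟩
    · have hp' := hp
      rw [SimpleGraph.Walk.cons_isPath_iff] at hp'
      obtain ⟨i, hi⟩ := ih hadj hp'.1 x hx
      refine ⟨i + 1, ?_⟩
      rw [Function.iterate_succ_apply, h1, hi]

/-- chain property -/
lemma chain_unique (b : V) (par : V → V) (dep : V → ℕ) (hb : par b = b)
    (h2 : ∀ v, v ≠ b → dep (par v) < dep v) (a u u' : V) (hu' : u' ≠ b)
    (i j : ℕ) (hi : par^[i] a = u) (hj : par^[j] a = u') (hpp : par u = par u') (hij : i ≤ j) :
    u = u' := by
  have key : ∀ k w, (∀ t < k, par^[t] w ≠ b) → dep (par^[k] w) + k ≤ dep w := by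
    intro k
    induction k with
    | zero => intro w _; simp
    | succ k ih =>
      intro w hw
      have h3 := ih w (fun t ht => hw t (by omega))
      have h4 := h2 (par^[k] w) (hw k (by omega))
      rw [Function.iterate_succ_apply']
      omega
  have hfix : ∀ k, par^[k] b = b := fun k => Function.iterate_fixed hb k
  rcases Nat.eq_or_lt_of_le hij with h | h
  · subst h; rw [← hi, ← hj]
  · exfalso
    obtain ⟨k, rfl⟩ : ∃ k, j = i + 1 + k := ⟨j - i - 1, by omega⟩
    have e1 : par^[k] (par u) = u' := by
      rw [← hj, ← hi, ← Function.iterate_succ_apply' par i a, ← Function.iterate_add_apply]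
      congr 1
      omega
    have e2 : par^[k + 1] (par u) = par u := by
      rw [Function.iterate_succ_apply', e1, hpp]
    by_cases hbb : ∀ t < k + 1, par^[t] (par u) ≠ b
    · have h3 := key (k + 1) (par u) hbb
      rw [e2] at h3
      omega
    · push Not at hbb
      obtain ⟨t, ht, htb⟩ := hbb
      apply hu'
      rw [← e1]
      have : k = (k - t) + t := by omega
      rw [this, Function.iterate_add_apply, htb, hfix]

/-- Directed graph of a parent function with orientation `o`. -/
def dirOf (b : V) (par : V → V) (o : V → Bool) (u v : V) : Prop :=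
  (u ≠ b ∧ par u = v ∧ o u = true) ∨ (v ≠ b ∧ par v = u ∧ o v = false)

lemma FS_eq (W : Type) [Fintype W] [DecidableEq W] (G : W → W → Prop) (b : V) (par : V → V)
    (o : V → Bool) (f : V → W) [Decidable (∀ u v, dirOf b par o u v → G (f u) (f v))] :
    FS G par o Finset.univ b f = if (∀ u v, dirOf b par o u v → G (f u) (f v)) then 1 else 0 := by
  split_ifs with h
  · unfold FS
    refine Finset.prod_eq_one fun v hv => ?_
    have hvb := Finset.ne_of_mem_erase hv
    cases ho : o v
    · have := h (par v) v (Or.inr ⟨hvb, rfl, ho⟩)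
      simp [ind, this]
    · have := h v (par v) (Or.inl ⟨hvb, rfl, ho⟩)
      simp [ind, this]
  · push Not at h
    obtain ⟨u, v, huv, hG⟩ := h
    unfold FS
    rcases huv with ⟨h1, h2, h3⟩ | ⟨h1, h2, h3⟩
    · refine Finset.prod_eq_zero (i := u) (by simp [h1]) ?_
      simp [ind, h2, h3, hG]
    · refine Finset.prod_eq_zero (i := v) (by simp [h1]) ?_
      simp [ind, h2, h3, hG]

/-- The main theorem, general form. -/
theorem pathEven_general {T : SimpleGraph V} (hT : T.IsTree) {a b : V} (p : T.Walk a b)
    (hp : p.IsPath) (hev : ∀ v, Even (T.neighborSet v).ncard → v ∈ p.support) :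
    ∃ D : V → V → Prop,
      (∀ u v, T.Adj u v → (D u v ∨ D v u)) ∧
      (∀ u v, D u v → (T.Adj u v ∧ ¬ D v u)) ∧
      ∀ (W : Type) [Fintype W] (G : W → W → Prop), Tour G →
        ({f : V → W | ∀ u v, D u v → G (f u) (f v)}.ncard : ℝ) ≤
          (Fintype.card W : ℝ) ^ (Fintype.card V) * (1 / 2) ^ (T.edgeSet.ncard) := by
  classical
  obtain ⟨par, hb, h1, h2⟩ := exists_parent hT b
  have hadj : ∀ u v, T.Adj u v → (u ≠ b ∧ par u = v) ∨ (v ≠ b ∧ par v = u) :=
    fun u v huv => adj_iff_parent hT b par h1 h2 huv
  have hsupp := path_support b par hadj p hp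
  set C : Set V := {x | ∃ i, par^[i] a = x} with hC
  have hyp : Hyp par (fun v => T.dist v b) C Finset.univ b := by
    refine ⟨Finset.mem_univ _, fun _ _ _ => Finset.mem_univ _, fun v _ hv => h2 v hv, ?_, ?_, ?_⟩
    · intro v _ hvb hvC
      have hnot : ¬ Even (T.neighborSet v).ncard := fun he => hvC (hsupp v (hev v he))
      have hN : T.neighborSet v = insert (par v) ((ch par Finset.univ b v : Finset V) : Set V) := by
        ext u
        simp only [SimpleGraph.mem_neighborSet, ch, Finset.mem_univ, Finset.coe_filter,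
          true_and, Set.mem_insert_iff, Set.mem_setOf_eq]
        constructor
        · intro huv
          rcases hadj v u huv with h | h
          · left; exact h.2.symm
          · right; exact h
        · rintro (rfl | ⟨h3, h4⟩)
          · exact h1 v hvb
          · have := h1 u h3
            rw [h4] at this
            exact this.symm
      have hnm : par v ∉ ((ch par Finset.univ b v : Finset V) : Set V) := by
        intro hm
        simp only [ch, Finset.mem_univ, Finset.coe_filter, true_and, Set.mem_setOf_eq] at hm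
        have h3 := h2 v hvb
        have h4 := h2 (par v) hm.1
        rw [hm.2] at h4
        omega
      rw [hN, Set.ncard_insert_of_notMem hnm, Set.ncard_coe_finset] at hnot
      rw [Nat.even_add_one, not_not] at hnot
      exact hnot
    · intro u _ u' _ hub hub' huC huC' hpp
      obtain ⟨i, hi⟩ := huC
      obtain ⟨j, hj⟩ := huC'
      rcases Nat.le_total i j with hij | hij
      · exact chain_unique b par (fun v => T.dist v b) hb h2 a u u' hub' i j hi hj hpp hij
      · exact (chain_unique b par (fun v => T.dist v b) hb h2 a u' u hub j i hj hi hpp.symm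
          hij).symm
    · intro v _ _ hvC
      obtain ⟨i, hi⟩ := hvC
      exact ⟨i + 1, by rw [Function.iterate_succ_apply', hi]⟩
  obtain ⟨o, ho⟩ := main_B _ Finset.univ b rfl hyp
  refine ⟨dirOf b par o, ?_, ?_, ?_⟩
  · intro u v huv
    rcases hadj u v huv with h | h
    · cases hou : o u
      · right; right; exact ⟨h.1, h.2, hou⟩
      · left; left; exact ⟨h.1, h.2, hou⟩
    · cases hov : o v
      · left; right; exact ⟨h.1, h.2, hov⟩
      · right; left; exact ⟨h.1, h.2, hov⟩
  · intro u v huv
    constructor
    · rcases huv with ⟨h3, h4, _⟩ | ⟨h3, h4, _⟩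
      · rw [← h4]; exact h1 u h3
      · rw [← h4]; exact (h1 v h3).symm
    · intro hvu
      rcases huv with ⟨h3, h4, h5⟩ | ⟨h3, h4, h5⟩ <;> rcases hvu with ⟨h6, h7, h8⟩ | ⟨h6, h7, h8⟩
      · have h9 := h2 u h3
        have h10 := h2 v h6
        rw [h4] at h9; rw [h7] at h10; omega
      · rw [h5] at h8; exact Bool.noConfusion h8
      · rw [h5] at h8; exact Bool.noConfusion h8
      · have h9 := h2 v h3
        have h10 := h2 u h6
        rw [h4] at h9; rw [h7] at h10; omega
  · intro W _ G hG
    have h3 := ho W G hG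
    rw [sum_NS] at h3
    have h4 : ∑ f : V → W, FS G par o Finset.univ b f =
        ({f : V → W | ∀ u v, dirOf b par o u v → G (f u) (f v)}.ncard : ℝ) := by
      rw [Finset.sum_congr rfl fun f _ => FS_eq W G b par o f, Finset.sum_boole]
      congr 1
      rw [← Set.ncard_coe_finset]
      congr 1
      ext f
      simp
    rw [h4] at h3
    have h5 : T.edgeSet.ncard = Fintype.card V - 1 := by
      have h6 := hT.card_edgeFinset
      have h7 : T.edgeSet.ncard = T.edgeFinset.card := by
        rw [← Set.ncard_coe_finset]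
        congr 1
        simp
      omega
    rw [h5]
    simpa using h3

end

end Pool.Agent.AntiSid
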